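import Pool.Agent.Helper65_PV.Stmts

/-! Squad PV, module CV: continuity of integrals over compact convex sets. -/

set_option autoImplicit false

open MeasureTheory Metric Set Filter Topology

namespace PV.H81

/-- a ball of radius `r` in a set which is `r/2`-close to a closed convex set -/
theorem mem_of_ball {W : Type} [NormedAddCommGroup W] [InnerProductSpace ℝ W] [CompleteSpace W]
    (A B : Set W) (hA : Convex ℝ A) (hA' : IsClosed A) (y : W) (r : ℝ) (hr : 0 < r)
    (hB : ball y r ⊆ B) (hBA : B ⊆ thickening (r / 2) A) : y ∈ A := by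
  by_contra hy
  obtain ⟨f, u, hf, hu⟩ := geometric_hahn_banach_closed_point hA hA' hy
  set w : W := (InnerProductSpace.toDual ℝ W).symm f with hw
  have hfw : ∀ x, f x = inner ℝ w x := by
    intro x
    rw [hw, InnerProductSpace.toDual_symm_apply]
  obtain ⟨a0, ha0, _⟩ := mem_thickening_iff.mp (hBA (hB (mem_ball_self hr)))
  have hw0 : w ≠ 0 := by
    intro h
    have h1 := hf a0 ha0
    rw [hfw, h, inner_zero_left] at h1 hu
    linarith
  have hn : 0 < ‖w‖ := norm_pos_iff.mpr hw0
  set p : W := y + ((r / 2) / ‖w‖) • w with hp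
  have hpy : dist p y = r / 2 := by
    rw [hp, dist_eq_norm, add_sub_cancel_left, norm_smul, Real.norm_eq_abs,
      abs_of_pos (by positivity), div_mul_cancel₀ _ hn.ne']
  obtain ⟨a, ha, hpa⟩ := mem_thickening_iff.mp (hBA (hB (mem_ball.mpr (by linarith))))
  have h1 : inner ℝ w (p - a) ≤ ‖w‖ * ‖p - a‖ := real_inner_le_norm _ _
  have h2 : inner ℝ w (p - a) = f y - f a + (r / 2) * ‖w‖ := by
    rw [hp, hfw, hfw, inner_sub_right, inner_add_right, inner_smul_right,
      real_inner_self_eq_norm_sq]
    field_simp
    ring
  have h3 := hf a ha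
  rw [dist_eq_norm] at hpa
  have h4 : ‖w‖ * ‖p - a‖ < ‖w‖ * (r / 2) := mul_lt_mul_of_pos_left hpa hn
  linarith

theorem cv : CVStmt := by
  intro W _ _ _ _ _ μ _ A A' hA hAc hA' hAc' hlim g hg
  have : CompleteSpace W := FiniteDimensional.complete ℝ W
  have : ProperSpace W := FiniteDimensional.proper ℝ W
  have e1 : ∀ j, ∫ x in A j, g x ∂μ = ∫ x, (A j).indicator g x ∂μ := fun j =>
    (integral_indicator (hA j).isClosed.measurableSet).symm
  have e2 : ∫ x in A', g x ∂μ = ∫ x, A'.indicator g x ∂μ :=
    (integral_indicator hA'.isClosed.measurableSet).symm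
  rw [e2]
  simp_rw [e1]
  have hK : IsCompact (cthickening 1 A') := hA'.cthickening
  refine tendsto_integral_filter_of_dominated_convergence
    ((cthickening 1 A').indicator fun x => ‖g x‖) ?_ ?_ ?_ ?_
  · refine Eventually.of_forall fun j => ?_
    exact hg.aestronglyMeasurable.indicator (hA j).isClosed.measurableSet
  · filter_upwards [hlim 1 one_pos] with j hj
    refine Eventually.of_forall fun x => ?_
    by_cases hx : x ∈ A j
    · rw [indicator_of_mem hx, indicator_of_mem (thickening_subset_cthickening _ _ (hj.1 hx))]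
    · rw [indicator_of_notMem hx, norm_zero]
      exact indicator_nonneg (fun _ _ => norm_nonneg _) _
  · rw [integrable_indicator_iff hK.isClosed.measurableSet]
    exact (hg.norm.continuousOn).integrableOn_compact hK
  · have h0 : μ (frontier A') = 0 := hAc'.addHaar_frontier μ
    have h1 : ∀ᵐ x ∂μ, x ∉ frontier A' := by
      rw [ae_iff]
      simpa using h0
    filter_upwards [h1] with x hx
    by_cases hxA : x ∈ A'
    · have hxi : x ∈ interior A' := by
        by_contra hcon
        exact hx (mem_sdiff_of_mem (subset_closure hxA) hcon)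
      obtain ⟨r, hr, hball⟩ := Metric.isOpen_iff.mp isOpen_interior x hxi
      refine Tendsto.congr' ?_ tendsto_const_nhds
      filter_upwards [hlim (r / 2) (half_pos hr)] with j hj
      have := mem_of_ball (A j) A' (hAc j) (hA j).isClosed x r hr
        (hball.trans interior_subset) hj.2
      rw [indicator_of_mem hxA, indicator_of_mem this]
    · have : ∃ e : ℝ, 0 < e ∧ x ∉ thickening e A' := by
        have h2 : x ∉ closure A' := by rwa [hA'.isClosed.closure_eq]
        rw [closure_eq_iInter_thickening] at h2
        simp only [mem_iInter, not_forall] at h2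
        obtain ⟨e, he, h3⟩ := h2
        exact ⟨e, he, h3⟩
      obtain ⟨e, he, hxe⟩ := this
      refine Tendsto.congr' ?_ tendsto_const_nhds
      filter_upwards [hlim e he] with j hj
      rw [indicator_of_notMem hxA, indicator_of_notMem (fun h => hxe (hj.1 h))]

end PV.H81
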